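import Pool.Agent.Helper51.BW.Final
import Pool.Agent.Helper51.BW.All2

/-!
# MP_ef0d6f_pr: speed at the critical point of iterated biased walks on traces

Under Condition 1, at the critical point `β_(i) = α_(i)` the `i`-th walk has speed zero:
`X^(i)_n / n → 0` in probability, and almost surely no limit of `X^(i)_n / n` other than `0` exists.
Proof: tilting of the first walk at the critical parameter, separation of the past, the middle and the
future strand by half spaces, energy bounds for finite networks, weak law of large numbers for the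
levels of the cut points.
-/

set_option autoImplicit false

open MeasureTheory Filter Topology

namespace Pool.Agent.Results.MP_ef0d6f_pr.ZeroSpeedAtCriticality

open Pool.Agent.Helper51.BW

/-- Under Condition 1, if `α_(i) = exp t` with `t > 0` the root of `φ_(i)(t) = 1` and
`β_(i) = α_(i)`, then `X^(i)_n / n → 0` in probability, and almost surely, if `X^(i)_n / n`
converges to some vector `v`, then `v = 0`. -/
theorem result (d : ℕ) (hd : 2 ≤ d) (p : ℕ → D d → ℝ) (hp1 : ∀ i, ∑ e, p i e = 1)
    (hc : Condition1 p) (Ω : Type) [MeasurableSpace Ω] (μ : Measure Ω) [IsProbabilityMeasure μ]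
    (X : ℕ → ℕ → Ω → V d) (hX : IsIterated μ p X) (i : ℕ) (hi : 1 ≤ i) (t : ℝ) (_ht : 0 < t)
    (hroot : phi (p 0) (p i) t = 1) (hcrit : beta (p i) = Real.exp t) :
    (∀ ε : ℝ, 0 < ε →
      Tendsto (fun n : ℕ => μ {ω | ε * n ≤ ∑ j, |(X i n ω j : ℝ)|}) atTop (𝓝 0)) ∧
    (∀ᵐ ω ∂μ, ∀ v : Fin d → ℝ,
      Tendsto (fun n : ℕ => fun j => (X i n ω j : ℝ) / n) atTop (𝓝 v) → v = 0) := by
  have h : ∀ ε : ℝ, 0 < ε →
      Tendsto (fun n : ℕ => μ {ω | ε * n ≤ ∑ j, |(X i n ω j : ℝ)|}) atTop (𝓝 0) :=
    fun ε hε => Pool.Agent.Helper51.BW.All2.core d hd Ω μ p X hc.pos hp1 hX i hi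
      (fun m hm _ => (cond_pos p hc m hm).2)
      (cond_crit (p 0) (p i) t (cond_pos p hc i hi).1 hroot hcrit) ε hε
  exact ⟨h, Pool.Agent.Helper51.BW.Main2.limit_zero μ (fun n => X i n) h⟩

end Pool.Agent.Results.MP_ef0d6f_pr.ZeroSpeedAtCriticality
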